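import Pool.Agent.SZT.StmtsB

set_option autoImplicit false

/-! Row EXL of squad SZT: expansion in a Laurent series on the annulus. -/

noncomputable section

open Polynomial H58Q

namespace Pool.Agent.SZT.H26

open Pool.Agent.SZT.B

variable {L : Type} [NormedField L]

/-- coefficients of the double series -/
def cA (a : ℕ → L) (i j : ℕ) : L := a (i + j) * (2⁻¹ : L) ^ (i + j) * ((i + j).choose i : L)

theorem cA_norm [IsUltrametricDist L] (h2 : ‖(2 : L)‖ = 1) {a : ℕ → L} (ha : ∀ k, ‖a k‖ ≤ 1)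
    (i j : ℕ) : ‖cA a i j‖ ≤ 1 := by
  unfold cA
  rw [norm_mul, norm_mul, norm_pow, norm_inv, h2, inv_one, one_pow, mul_one]
  have h1 := ha (i + j)
  have h3 : ‖(((i + j).choose i : ℕ) : L)‖ ≤ 1 := IsUltrametricDist.norm_natCast_le_one L _
  calc ‖a (i + j)‖ * ‖(((i + j).choose i : ℕ) : L)‖ ≤ 1 * 1 :=
        mul_le_mul h1 h3 (norm_nonneg _) zero_le_one
    _ = 1 := one_mul 1

/-- the terms of the coefficient `k` -/
def hk (η : L) (a : ℕ → L) (k : ℤ) (j : ℕ) : L :=
  if 0 ≤ k + j then cA a (k + j).toNat j * η ^ j else 0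

/-- the coefficient `k` -/
def cc (η : L) (a : ℕ → L) (k : ℤ) : L := ∑' j : ℕ, hk η a k j

theorem hk_norm [IsUltrametricDist L] (h2 : ‖(2 : L)‖ = 1) {η : L} {a : ℕ → L}
    (ha : ∀ k, ‖a k‖ ≤ 1) (k : ℤ) (j : ℕ) : ‖hk η a k j‖ ≤ ‖η‖ ^ j := by
  unfold hk
  split_ifs with h
  · rw [norm_mul, norm_pow]
    calc ‖cA a (k + j).toNat j‖ * ‖η‖ ^ j ≤ 1 * ‖η‖ ^ j :=
          mul_le_mul_of_nonneg_right (cA_norm h2 ha _ _) (by positivity)
      _ = _ := one_mul _
  · rw [norm_zero]; positivity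

theorem hk_summable [IsUltrametricDist L] [CompleteSpace L] (h2 : ‖(2 : L)‖ = 1) {η : L}
    (hη : ‖η‖ < 1) {a : ℕ → L} (ha : ∀ k, ‖a k‖ ≤ 1) (k : ℤ) :
    Summable (fun j : ℕ => hk η a k j) :=
  Summable.of_norm_bounded (summable_geometric_of_lt_one (norm_nonneg _) hη)
    (hk_norm h2 ha k)

theorem cc_bdd [IsUltrametricDist L] (h2 : ‖(2 : L)‖ = 1) {η : L} (hη0 : η ≠ 0)
    (hη : ‖η‖ < 1) {a : ℕ → L} (ha : ∀ k, ‖a k‖ ≤ 1) (k : ℤ) :
    ‖cc η a k‖ ≤ 1 ∧ ‖cc η a k‖ ≤ ‖η‖ ^ (-k) := by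
  have hpos : 0 < ‖η‖ := norm_pos_iff.mpr hη0
  constructor
  · refine IsUltrametricDist.norm_tsum_le_of_forall_le fun j => ?_
    exact (hk_norm h2 ha k j).trans (pow_le_one₀ (norm_nonneg _) hη.le)
  · refine IsUltrametricDist.norm_tsum_le_of_forall_le fun j => ?_
    by_cases h : 0 ≤ k + j
    · refine (hk_norm h2 ha k j).trans ?_
      rw [← zpow_natCast]
      exact zpow_le_zpow_right_of_le_one₀ hpos hη.le (by omega)
    · unfold hk
      rw [if_neg h, norm_zero]
      positivity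

/-- the expansion -/
theorem cc_hasSum [IsUltrametricDist L] [CompleteSpace L] (h2 : ‖(2 : L)‖ = 1) {η : L}
    (hη0 : η ≠ 0) (hη : ‖η‖ < 1) {a : ℕ → L} (ha : ∀ k, ‖a k‖ ≤ 1) (X : L)
    (hX : Ann ‖η‖ X) :
    HasSum (fun k : ℤ => cc η a k * X ^ k) (pval a ((X + η / X) / 2)) := by
  have hpos : 0 < ‖η‖ := norm_pos_iff.mpr hη0
  have hX0 : X ≠ 0 := by
    intro h
    have := hX.1
    rw [h, norm_zero] at this
    linarith
  have hXp : 0 < ‖X‖ := norm_pos_iff.mpr hX0
  have ht : ‖η / X‖ < 1 := by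
    rw [norm_div, div_lt_one hXp]
    exact hX.1
  -- the double series
  let f : ℕ × ℕ → L := fun p => cA a p.1 p.2 * (X ^ p.1 * (η / X) ^ p.2)
  have hf : Summable f := by
    have hg : Summable (fun p : ℕ × ℕ => ‖X‖ ^ p.1 * ‖η / X‖ ^ p.2) :=
      Summable.mul_of_nonneg (summable_geometric_of_lt_one (norm_nonneg _) hX.2)
        (summable_geometric_of_lt_one (norm_nonneg _) ht)
        (fun i => by positivity) (fun i => by positivity)
    refine Summable.of_norm_bounded hg fun p => ?_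
    show ‖cA a p.1 p.2 * (X ^ p.1 * (η / X) ^ p.2)‖ ≤ _
    rw [norm_mul, norm_mul, norm_pow, norm_pow]
    calc ‖cA a p.1 p.2‖ * (‖X‖ ^ p.1 * ‖η / X‖ ^ p.2) ≤ 1 * (‖X‖ ^ p.1 * ‖η / X‖ ^ p.2) :=
          mul_le_mul_of_nonneg_right (cA_norm h2 ha _ _) (by positivity)
      _ = _ := one_mul _
  -- sum over the antidiagonals
  have h1 : HasSum (fun m : ℕ => a m * ((X + η / X) / 2) ^ m) (∑' p, f p) := by
    have hs : HasSum (fun x : Σ n : ℕ, Finset.HasAntidiagonal.antidiagonal n =>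
        f (Finset.HasAntidiagonal.sigmaAntidiagonalEquivProd x)) (∑' p, f p) :=
      (Finset.HasAntidiagonal.sigmaAntidiagonalEquivProd.hasSum_iff (f := f)).mpr hf.hasSum
    refine hs.sigma fun m => ?_
    have hfin : HasSum (fun c : Finset.HasAntidiagonal.antidiagonal m =>
        f (Finset.HasAntidiagonal.sigmaAntidiagonalEquivProd ⟨m, c⟩))
        (∑ c : Finset.HasAntidiagonal.antidiagonal m, f (Finset.HasAntidiagonal.sigmaAntidiagonalEquivProd ⟨m, c⟩)) :=
      hasSum_fintype _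
    have e : ∑ c : Finset.HasAntidiagonal.antidiagonal m, f (Finset.HasAntidiagonal.sigmaAntidiagonalEquivProd ⟨m, c⟩) =
        a m * ((X + η / X) / 2) ^ m := by
      have e1 : ∑ c : Finset.HasAntidiagonal.antidiagonal m, f (Finset.HasAntidiagonal.sigmaAntidiagonalEquivProd ⟨m, c⟩) =
          ∑ p ∈ Finset.HasAntidiagonal.antidiagonal m, f p := by
        rw [← Finset.sum_coe_sort (Finset.HasAntidiagonal.antidiagonal m) f]
        rfl
      rw [e1, div_eq_mul_inv, mul_pow, (Commute.all X (η / X)).add_pow' m, Finset.sum_mul,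
        Finset.mul_sum]
      refine Finset.sum_congr rfl fun p hp => ?_
      have hpm : p.1 + p.2 = m := Finset.HasAntidiagonal.mem_antidiagonal.mp hp
      show cA a p.1 p.2 * (X ^ p.1 * (η / X) ^ p.2) = _
      unfold cA
      rw [hpm, nsmul_eq_mul]
      ring
    rw [← e]
    exact hfin
  have h3 : pval a ((X + η / X) / 2) = ∑' p, f p := h1.tsum_eq
  rw [h3]
  -- sum over the differences
  let g : ℤ × ℕ → L := fun q => hk η a q.1 q.2 * X ^ q.1
  let ι : ℕ × ℕ → ℤ × ℕ := fun p => ((p.1 : ℤ) - p.2, p.2)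
  have hι : Function.Injective ι := by
    rintro ⟨i, j⟩ ⟨i', j'⟩ h
    simp only [ι, Prod.mk.injEq] at h
    obtain ⟨h4, h5⟩ := h
    subst h5
    have : (i : ℤ) = i' := by linarith
    have : i = i' := by exact_mod_cast this
    rw [this]
  have hgf : g ∘ ι = f := by
    funext p
    obtain ⟨i, j⟩ := p
    show hk η a ((i : ℤ) - j) j * X ^ ((i : ℤ) - j) = cA a i j * (X ^ i * (η / X) ^ j)
    have e1 : ((i : ℤ) - j) + j = i := by ring
    unfold hk
    rw [e1, if_pos (by omega), Int.toNat_natCast, zpow_sub₀ hX0, zpow_natCast, zpow_natCast,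
      div_pow]
    ring
  have hg : HasSum g (∑' p, f p) := by
    rw [← hι.hasSum_iff (f := g), hgf]
    · exact hf.hasSum
    · rintro ⟨k, j⟩ hkj
      show hk η a k j * X ^ k = 0
      unfold hk
      rw [if_neg, zero_mul]
      intro h
      apply hkj
      refine ⟨((k + j).toNat, j), ?_⟩
      simp only [ι, Prod.mk.injEq, and_true]
      rw [Int.toNat_of_nonneg h]
      ring
  refine hg.prod_fiberwise fun k => ?_
  show HasSum (fun j : ℕ => hk η a k j * X ^ k) (cc η a k * X ^ k)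
  exact (hk_summable h2 hη ha k).hasSum.mul_right _

theorem exl (_pmu : PmuStmt) : ExlStmt := by
  intro L _ _ _ η a b h2 hη0 hη ha hb
  have hpos : 0 < ‖η‖ := norm_pos_iff.mpr hη0
  have hA := cc_bdd h2 hη0 hη ha
  have hB := cc_bdd h2 hη0 hη hb
  let d : ℤ → L := fun k => (cc η b (k - 1) - η * cc η b (k + 1)) * 2⁻¹
  have hd : ∀ k, ‖d k‖ ≤ 1 ∧ ‖d k‖ ≤ ‖η‖ ^ (-k) := by
    intro k
    have e : ‖d k‖ = ‖cc η b (k - 1) - η * cc η b (k + 1)‖ := by
      show ‖(cc η b (k - 1) - η * cc η b (k + 1)) * 2⁻¹‖ = _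
      rw [norm_mul, norm_inv, h2, inv_one, mul_one]
    have h3 : ‖cc η b (k - 1) - η * cc η b (k + 1)‖ ≤
        max ‖cc η b (k - 1)‖ ‖η * cc η b (k + 1)‖ := by
      rw [sub_eq_add_neg]
      refine (IsUltrametricDist.norm_add_le_max _ _).trans ?_
      rw [norm_neg]
    rw [e]
    constructor
    · refine h3.trans (max_le (hB _).1 ?_)
      rw [norm_mul]
      calc ‖η‖ * ‖cc η b (k + 1)‖ ≤ 1 * 1 :=
            mul_le_mul hη.le (hB _).1 (norm_nonneg _) zero_le_one
        _ = 1 := one_mul 1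
    · refine h3.trans (max_le ?_ ?_)
      · refine (hB _).2.trans (zpow_le_zpow_right_of_le_one₀ hpos hη.le (by omega))
      · rw [norm_mul]
        calc ‖η‖ * ‖cc η b (k + 1)‖ ≤ ‖η‖ * ‖η‖ ^ (-(k + 1)) :=
              mul_le_mul_of_nonneg_left (hB _).2 hpos.le
          _ = ‖η‖ ^ (-k) := by
              rw [← zpow_one_add₀ hpos.ne']
              congr 1
              ring
  refine ⟨fun k => cc η a k + d k, ⟨fun k => ?_, fun k => ?_⟩, ?_⟩
  · exact (IsUltrametricDist.norm_add_le_max _ _).trans (max_le (hA k).1 (hd k).1)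
  · rw [one_mul]
    exact (IsUltrametricDist.norm_add_le_max _ _).trans (max_le (hA k).2 (hd k).2)
  · intro X hX
    have hX0 : X ≠ 0 := by
      intro h
      have := hX.1
      rw [h, norm_zero] at this
      linarith
    have sA := cc_hasSum h2 hη0 hη ha X hX
    have sB := cc_hasSum h2 hη0 hη hb X hX
    set P := pval b ((X + η / X) / 2) with hP
    have s1 : HasSum (fun k : ℤ => cc η b (k - 1) * X ^ (k - 1)) P := by
      have := (Equiv.subRight (1 : ℤ)).hasSum_iff (f := fun k : ℤ => cc η b k * X ^ k) (a := P)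
      exact this.mpr sB
    have s2 : HasSum (fun k : ℤ => cc η b (k + 1) * X ^ (k + 1)) P := by
      have := (Equiv.addRight (1 : ℤ)).hasSum_iff (f := fun k : ℤ => cc η b k * X ^ k) (a := P)
      exact this.mpr sB
    have s3 : HasSum (fun k : ℤ => d k * X ^ k) ((X * P - η / X * P) * 2⁻¹) := by
      have s4 := ((s1.mul_left X).sub (s2.mul_left (η / X))).mul_right (2⁻¹ : L)
      have e : (fun k : ℤ => d k * X ^ k) = fun k : ℤ =>
          (X * (cc η b (k - 1) * X ^ (k - 1)) - η / X * (cc η b (k + 1) * X ^ (k + 1))) * 2⁻¹ := by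
        funext k
        show (cc η b (k - 1) - η * cc η b (k + 1)) * 2⁻¹ * X ^ k = _
        have e1 : X * (cc η b (k - 1) * X ^ (k - 1)) = cc η b (k - 1) * X ^ k := by
          rw [zpow_sub_one₀ hX0]
          field_simp
        have e2 : η / X * (cc η b (k + 1) * X ^ (k + 1)) = η * cc η b (k + 1) * X ^ k := by
          rw [zpow_add_one₀ hX0]
          field_simp
        rw [e1, e2]
        ring
      rw [e]
      exact s4
    have s5 := (sA.add s3).tsum_eq
    unfold val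
    have e3 : (fun k : ℤ => (cc η a k + d k) * X ^ k) =
        fun k : ℤ => cc η a k * X ^ k + d k * X ^ k := by
      funext k
      ring
    rw [e3, s5]
    ring

end Pool.Agent.SZT.H26
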