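import Pool.Agent.SZT.StmtsC

set_option autoImplicit false

/-! Row NRP of squad SZT: norm of a generator of a product. -/

namespace Pool.Agent.SZT.H26

open Polynomial NumberField H58Q

/-- conjugation -/
noncomputable def cj {K : Type} [Field K] (f : K[X]) : Q K f →+* Q K f := starRingEnd (Q K f)

theorem cj_mk {K : Type} [Field K] (f U W : K[X]) :
    cj f (⟨U, W⟩ : Q K f) = ⟨U, -W⟩ := by
  show star (⟨U, W⟩ : Q K f) = ⟨U, -W⟩
  rw [QuadraticAlgebra.star_mk]
  simp

theorem map_MI {K : Type} [Field K] (f A B : K[X]) :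
    (MI f A B).map (cj f) = MI f A (-B) := by
  unfold MI
  rw [Ideal.map_span, Set.image_pair, cj_mk, cj_mk]
  apply le_antisymm
  · rw [Ideal.span_le]
    rintro x (rfl | rfl)
    · exact Ideal.subset_span (by simp)
    · have h : (⟨-B, -1⟩ : Q K f) = -⟨-(-B), 1⟩ := by
        ext <;> simp
      rw [h]
      exact neg_mem (Ideal.subset_span (Set.mem_insert_of_mem _ rfl))
  · rw [Ideal.span_le]
    rintro x (rfl | rfl)
    · exact Ideal.subset_span (by simp)
    · have h : (⟨-(-B), 1⟩ : Q K f) = -⟨-B, -1⟩ := by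
        ext <;> simp
      rw [h]
      exact neg_mem (Ideal.subset_span (Set.mem_insert_of_mem _ rfl))

theorem mul_cj {K : Type} [Field K] (f U W : K[X]) :
    (⟨U, W⟩ : Q K f) * cj f ⟨U, W⟩ = ⟨U ^ 2 - f * W ^ 2, 0⟩ := by
  rw [cj_mk]
  ext1
  · simp only [QuadraticAlgebra.re_mul]
    ring
  · simp only [QuadraticAlgebra.im_mul]
    ring

theorem nrp (mii : MiiStatement) : NrpStatement := by
  intro K _ f A B A' B' U W h2 hf _ hA hA' hAB hAB' hI
  have hI' := congrArg (Ideal.map (cj f)) hI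
  rw [Ideal.map_mul, map_MI, map_MI, Ideal.map_span, Set.image_singleton, neg_neg] at hI'
  have m1 := mii K f A B h2 hf hAB
  have m2 := mii K f A' (-B') h2 hf (by rw [neg_sq]; exact hAB')
  rw [neg_neg] at m2
  have h3 : Ideal.span {(⟨U ^ 2 - f * W ^ 2, 0⟩ : Q K f)} =
      Ideal.span {(⟨A * A', 0⟩ : Q K f)} := by
    rw [← mul_cj f U W, ← Ideal.span_singleton_mul_span_singleton, ← hI, ← hI']
    have e : (⟨A * A', 0⟩ : Q K f) = ⟨A, 0⟩ * ⟨A', 0⟩ := by
      ext1
      · simp [QuadraticAlgebra.re_mul]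
      · simp [QuadraticAlgebra.im_mul]
    rw [e, ← Ideal.span_singleton_mul_span_singleton, ← m1, ← m2]
    ring
  have h4 : (⟨U ^ 2 - f * W ^ 2, 0⟩ : Q K f) ∈ Ideal.span {(⟨A * A', 0⟩ : Q K f)} := by
    rw [← h3]; exact Ideal.mem_span_singleton_self _
  have h5 : (⟨A * A', 0⟩ : Q K f) ∈ Ideal.span {(⟨U ^ 2 - f * W ^ 2, 0⟩ : Q K f)} := by
    rw [h3]; exact Ideal.mem_span_singleton_self _
  obtain ⟨x, hx⟩ := Ideal.mem_span_singleton'.mp h4
  obtain ⟨y, hy⟩ := Ideal.mem_span_singleton'.mp h5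
  have hx' := congrArg QuadraticAlgebra.re hx
  have hy' := congrArg QuadraticAlgebra.re hy
  simp only [QuadraticAlgebra.re_mul, mul_zero, add_zero] at hx' hy'
  have hAA : A * A' ≠ 0 := (hA.mul hA').ne_zero
  have h6 : y.re * x.re = 1 := by
    have : (y.re * x.re) * (A * A') = 1 * (A * A') := by
      rw [mul_assoc, hx', hy', one_mul]
    exact mul_right_cancel₀ hAA this
  have hu : IsUnit x.re := IsUnit.of_mul_eq_one_right _ h6
  obtain ⟨c, hc, hcx⟩ := Polynomial.isUnit_iff.mp hu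
  refine ⟨c, hc.ne_zero, ?_⟩
  rw [← hx', ← hcx]

end Pool.Agent.SZT.H26
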